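import Pool.Agent.U26.SG.Stm4
import Pool.Agent.N136.BRFIN

/-!
# Project SG (helper26), fourth part, package FI (helper88): finite fourth moments
-/

set_option autoImplicit false
open MeasureTheory Filter Topology Complex
open scoped ContDiff ENNReal

namespace Pool.Agent.U88.SG.FI

open Pool.Agent.U26.SG
open Pool.Agent.W745.RW (lap TF W Dp)
open Pool.Agent.N661.BR
open Pool.Agent.N136.BRFIN (M meas_M AV_shift M_ae AV_nonneg meas_sq)

lemma AV_diff (p : ℤ) {N : ℕ} (hN : 0 < N) (f : MW) :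
    (AV p N f 0 - AV p 1 f 0) ^ 2 ≤
      ∑ j ∈ Finset.range N, 1 / (N : ℝ) *
        (‖W 1 f (2 * (j : ℤ) + p) 0‖ ^ 2 - ‖W 1 f p 0‖ ^ 2) ^ 2 := by
  have hN' : (0 : ℝ) < N := by exact_mod_cast hN
  have h1 : AV p N f 0 - AV p 1 f 0 = 1 / (N : ℝ) *
      ∑ j ∈ Finset.range N, (‖W 1 f (2 * (j : ℤ) + p) 0‖ ^ 2 - ‖W 1 f p 0‖ ^ 2) := by
    unfold AV
    rw [Finset.sum_sub_distrib, Finset.sum_const, Finset.card_range, nsmul_eq_mul]
    simp only [Finset.sum_range_one, Nat.cast_one, Nat.cast_zero, mul_zero, zero_add, one_div]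
    field_simp
  rw [h1, mul_pow, ← Finset.mul_sum]
  have h2 := sq_sum_le_card_mul_sum_sq (s := Finset.range N)
    (f := fun j : ℕ => ‖W 1 f (2 * (j : ℤ) + p) 0‖ ^ 2 - ‖W 1 f p 0‖ ^ 2)
  rw [Finset.card_range] at h2
  have h3 : (1 / (N : ℝ)) ^ 2 * (N * ∑ j ∈ Finset.range N,
      (‖W 1 f (2 * (j : ℤ) + p) 0‖ ^ 2 - ‖W 1 f p 0‖ ^ 2) ^ 2) = 1 / (N : ℝ) *
      ∑ j ∈ Finset.range N, (‖W 1 f (2 * (j : ℤ) + p) 0‖ ^ 2 - ‖W 1 f p 0‖ ^ 2) ^ 2 := by
    field_simp
  rw [← h3]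
  exact mul_le_mul_of_nonneg_left h2 (by positivity)

lemma two_sq (a b : ℝ) : ENNReal.ofReal ((a + b) ^ 2) ≤
    2 * ENNReal.ofReal (a ^ 2) + 2 * ENNReal.ofReal (b ^ 2) := by
  have e : (2 : ℝ≥0∞) = ENNReal.ofReal 2 := by simp
  rw [e, ← ENNReal.ofReal_mul (by norm_num), ← ENNReal.ofReal_mul (by norm_num),
    ← ENNReal.ofReal_add (by positivity) (by positivity)]
  apply ENNReal.ofReal_le_ofReal
  nlinarith [sq_nonneg (a - b)]

lemma E_two (μ : Measure MW) {a b : MW → ℝ} (ha : Measurable a) (hb : Measurable b) {x y z : ℝ}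
    (hx : 0 ≤ x) (hy : 0 ≤ y) (hxy : 2 * x + 2 * y ≤ z)
    (h1 : ∫⁻ f, ENNReal.ofReal (a f ^ 2) ∂μ ≤ ENNReal.ofReal x)
    (h2 : ∫⁻ f, ENNReal.ofReal (b f ^ 2) ∂μ ≤ ENNReal.ofReal y) :
    ∫⁻ f, ENNReal.ofReal ((a f + b f) ^ 2) ∂μ ≤ ENNReal.ofReal z := by
  have m1 : Measurable fun f => ENNReal.ofReal (a f ^ 2) := (ha.pow_const 2).ennreal_ofReal
  have m2 : Measurable fun f => ENNReal.ofReal (b f ^ 2) := (hb.pow_const 2).ennreal_ofReal
  calc ∫⁻ f, ENNReal.ofReal ((a f + b f) ^ 2) ∂μ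
      ≤ ∫⁻ f, (2 * ENNReal.ofReal (a f ^ 2) + 2 * ENNReal.ofReal (b f ^ 2)) ∂μ :=
        lintegral_mono fun f => two_sq _ _
    _ = 2 * ∫⁻ f, ENNReal.ofReal (a f ^ 2) ∂μ + 2 * ∫⁻ f, ENNReal.ofReal (b f ^ 2) ∂μ := by
        rw [lintegral_add_left (m1.const_mul 2), lintegral_const_mul _ m1, lintegral_const_mul _ m2]
    _ ≤ 2 * ENNReal.ofReal x + 2 * ENNReal.ofReal y := by gcongr
    _ = ENNReal.ofReal (2 * x + 2 * y) := by
        have e : (2 : ℝ≥0∞) = ENNReal.ofReal 2 := by simp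
        rw [e, ← ENNReal.ofReal_mul (by norm_num), ← ENNReal.ofReal_mul (by norm_num),
          ← ENNReal.ofReal_add (by positivity) (by positivity)]
    _ ≤ ENNReal.ofReal z := ENNReal.ofReal_le_ofReal hxy

section

variable {μ : Measure MW} {c : ℝ}
  (hX : ∀ (p : ℤ) (J : ℕ),
    ∫⁻ f : MW, ENNReal.ofReal ((‖W 1 f (2 * (J : ℤ) + p) 0‖ ^ 2 - ‖W 1 f p 0‖ ^ 2) ^ 2) ∂μ ≤
      ENNReal.ofReal (4 * c ^ 2))

include hX in
lemma E_AV (p : ℤ) {N : ℕ} (hN : 0 < N) :
    ∫⁻ f : MW, ENNReal.ofReal ((AV p N f 0 - AV p 1 f 0) ^ 2) ∂μ ≤ ENNReal.ofReal (4 * c ^ 2) := by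
  have hN' : (0 : ℝ) < N := by exact_mod_cast hN
  have hm : ∀ j : ℕ, Measurable fun f : MW => ENNReal.ofReal
      ((‖W 1 f (2 * (j : ℤ) + p) 0‖ ^ 2 - ‖W 1 f p 0‖ ^ 2) ^ 2) := fun j =>
    (((meas_sq _ 0).sub (meas_sq _ 0)).pow_const 2).ennreal_ofReal
  calc ∫⁻ f : MW, ENNReal.ofReal ((AV p N f 0 - AV p 1 f 0) ^ 2) ∂μ
      ≤ ∫⁻ f : MW, ∑ j ∈ Finset.range N, ENNReal.ofReal (1 / (N : ℝ)) * ENNReal.ofReal
        ((‖W 1 f (2 * (j : ℤ) + p) 0‖ ^ 2 - ‖W 1 f p 0‖ ^ 2) ^ 2) ∂μ := by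
        refine lintegral_mono fun f => ?_
        refine (ENNReal.ofReal_le_ofReal (AV_diff p hN f)).trans ?_
        rw [ENNReal.ofReal_sum_of_nonneg fun i _ => by positivity]
        refine Finset.sum_le_sum fun j _ => ?_
        rw [ENNReal.ofReal_mul (by positivity)]
    _ = ∑ j ∈ Finset.range N, ENNReal.ofReal (1 / (N : ℝ)) * ∫⁻ f : MW, ENNReal.ofReal
        ((‖W 1 f (2 * (j : ℤ) + p) 0‖ ^ 2 - ‖W 1 f p 0‖ ^ 2) ^ 2) ∂μ := by
        rw [lintegral_finsetSum _ fun j _ => (hm j).const_mul _]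
        refine Finset.sum_congr rfl fun j _ => ?_
        rw [lintegral_const_mul _ (hm j)]
    _ ≤ ∑ j ∈ Finset.range N, ENNReal.ofReal (1 / (N : ℝ)) * ENNReal.ofReal (4 * c ^ 2) := by
        refine Finset.sum_le_sum fun j _ => ?_
        gcongr
        exact hX p j
    _ = ENNReal.ofReal (4 * c ^ 2) := by
        rw [Finset.sum_const, Finset.card_range, nsmul_eq_mul, ← mul_assoc]
        have : (N : ℝ≥0∞) * ENNReal.ofReal (1 / (N : ℝ)) = 1 := by
          rw [← ENNReal.ofReal_natCast, ← ENNReal.ofReal_mul hN'.le, mul_one_div_cancel hN'.ne',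
            ENNReal.ofReal_one]
        rw [this, one_mul]

include hX in
lemma E_D (k : ℕ) :
    ∫⁻ f : MW, ENNReal.ofReal ((M k f 0 - M 0 f 0) ^ 2) ∂μ ≤ ENNReal.ofReal (16 * c ^ 2) := by
  have h1 := E_AV hX 0 (N := 4 ^ k) (by positivity)
  have h2 := E_AV hX 1 (N := 4 ^ k) (by positivity)
  have h3 := E_two μ (a := fun f : MW => AV 0 (4 ^ k) f 0 - AV 0 1 f 0)
    (b := fun f : MW => AV 1 (4 ^ k) f 0 - AV 1 1 f 0) (z := 16 * c ^ 2)
    ((N136.BRFIN.meas_AV _ _ _).sub (N136.BRFIN.meas_AV _ _ _))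
    ((N136.BRFIN.meas_AV _ _ _).sub (N136.BRFIN.meas_AV _ _ _))
    (by positivity) (by positivity) (by linarith) h1 h2
  refine le_trans (le_of_eq ?_) h3
  refine lintegral_congr fun f => ?_
  congr 2
  unfold M
  rw [pow_zero]
  ring

include hX in
lemma E_Dv (hst : IsStationary μ) (k : ℕ) (v : ℂ) :
    ∫⁻ f : MW, ENNReal.ofReal ((M k f v - M 0 f v) ^ 2) ∂μ ≤ ENNReal.ofReal (16 * c ^ 2) := by
  have hG : Measurable fun f : MW => ENNReal.ofReal ((M k f 0 - M 0 f 0) ^ 2) :=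
    (((meas_M k 0).sub (meas_M 0 0)).pow_const 2).ennreal_ofReal
  have h1 : ∫⁻ f : MW, ENNReal.ofReal ((M k f v - M 0 f v) ^ 2) ∂μ =
      ∫⁻ f : MW, ENNReal.ofReal ((M k (shift v f) 0 - M 0 (shift v f) 0) ^ 2) ∂μ := by
    refine lintegral_congr fun f => ?_
    unfold M
    rw [AV_shift, AV_shift, AV_shift, AV_shift]
  rw [h1, ← lintegral_map hG (meas_shift v), hst v]
  exact E_D hX k

include hX in
lemma E_v [IsProbabilityMeasure μ] (hst : IsStationary μ)
    (hc : ∀ (a : ℤ) (w : ℂ), ∫⁻ f : MW, ENNReal.ofReal (‖W 1 f a w‖ ^ 2) ∂μ ≤ ENNReal.ofReal c)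
    (v : ℂ) :
    ∫⁻ f : MW, ENNReal.ofReal ((M 0 f 0 - M 0 f v) ^ 2) ∂μ ≤ ENNReal.ofReal (64 * c ^ 2) := by
  set H : ℕ → MW → ℝ≥0∞ := fun k f =>
    ENNReal.ofReal (((M k f v - M 0 f v) + -(M k f 0 - M 0 f 0)) ^ 2) with hH
  have hHm : ∀ k, Measurable (H k) := fun k =>
    (((((meas_M k v).sub (meas_M 0 v))).add (((meas_M k 0).sub (meas_M 0 0)).neg)).pow_const
      2).ennreal_ofReal
  have hHi : ∀ k, ∫⁻ f, H k f ∂μ ≤ ENNReal.ofReal (64 * c ^ 2) := by
    intro k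
    refine E_two μ (a := fun f : MW => M k f v - M 0 f v)
      (b := fun f : MW => -(M k f 0 - M 0 f 0)) (z := 64 * c ^ 2) (x := 16 * c ^ 2)
      (y := 16 * c ^ 2) ((meas_M k v).sub (meas_M 0 v)) (((meas_M k 0).sub (meas_M 0 0)).neg)
      (by positivity) (by positivity) (by linarith) (E_Dv hX hst k v) ?_
    simpa only [neg_sq] using E_D hX k
  have hae : ∀ᵐ f : MW ∂μ, ENNReal.ofReal ((M 0 f 0 - M 0 f v) ^ 2) =
      liminf (fun k => H k f) atTop := by
    filter_upwards [M_ae μ c hc v] with f hf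
    have h1 : Tendsto (fun k => ((M k f v - M 0 f v) + -(M k f 0 - M 0 f 0)) ^ 2) atTop
        (𝓝 ((M 0 f 0 - M 0 f v) ^ 2)) := by
      have h2 : Tendsto (fun k => ((M k f v - M k f 0) + (M 0 f 0 - M 0 f v)) ^ 2) atTop
          (𝓝 ((0 + (M 0 f 0 - M 0 f v)) ^ 2)) := (hf.add_const _).pow 2
      rw [zero_add] at h2
      refine h2.congr fun k => ?_
      ring
    exact (ENNReal.tendsto_ofReal h1).liminf_eq.symm
  rw [lintegral_congr_ae hae]
  refine (lintegral_liminf_le hHm).trans ?_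
  refine (liminf_le_liminf (Eventually.of_forall hHi)).trans ?_
  simp

end

lemma M0_eq (f : MW) (z : ℂ) : M 0 f z = ‖W 1 f 0 z‖ ^ 2 + ‖W 1 f 1 z‖ ^ 2 := by
  unfold M AV
  simp

lemma M0_cont (f : MW) : Continuous fun z => M 0 f z := by
  have h : (fun z => M 0 f z) = fun z => ‖W 1 f 0 z‖ ^ 2 + ‖W 1 f 1 z‖ ^ 2 := by
    funext z
    exact M0_eq f z
  rw [h]
  exact ((W_cont f 0).norm.pow 2).add ((W_cont f 1).norm.pow 2)

/-- a test function with integral `1` -/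
lemma exists_test : ∃ φ : ℂ → ℝ, TF Set.univ φ ∧ (∀ z, 0 ≤ φ z) ∧ ∫ z, φ z = 1 := by
  let b : ContDiffBump (0 : ℂ) := ⟨1, 2, by norm_num, by norm_num⟩
  refine ⟨b.normed volume, ⟨b.contDiff_normed, b.hasCompactSupport_normed, Set.subset_univ _⟩,
    b.nonneg_normed, b.integral_normed⟩

lemma jensen {φ h : ℂ → ℝ} (hφc : Continuous φ) (hφs : HasCompactSupport φ) (hφ0 : ∀ z, 0 ≤ φ z)
    (hφ1 : ∫ z, φ z = 1) (hh : Continuous h) :
    (∫ z, φ z * h z) ^ 2 ≤ ∫ z, φ z * h z ^ 2 := by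
  set a := ∫ z, φ z * h z with ha
  have i1 : Integrable (fun z => φ z * h z) :=
    (hφc.mul hh).integrable_of_hasCompactSupport hφs.mul_right
  have i2 : Integrable (fun z => φ z * h z ^ 2) :=
    (hφc.mul (hh.pow 2)).integrable_of_hasCompactSupport hφs.mul_right
  have i0 : Integrable φ := hφc.integrable_of_hasCompactSupport hφs
  have h1 : 0 ≤ ∫ z, φ z * (h z - a) ^ 2 := integral_nonneg fun z => by
    have := hφ0 z
    positivity
  have h2 : ∫ z, φ z * (h z - a) ^ 2 = (∫ z, φ z * h z ^ 2) - a ^ 2 := by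
    have e : (fun z => φ z * (h z - a) ^ 2) =
        fun z => (φ z * h z ^ 2 - (2 * a) * (φ z * h z)) + a ^ 2 * φ z := by
      funext z
      ring
    have j1 : Integrable (fun z => (2 * a) * (φ z * h z)) := i1.const_mul _
    have j2 : Integrable (fun z => φ z * h z ^ 2 - (2 * a) * (φ z * h z)) := i2.sub j1
    have j3 : Integrable (fun z => a ^ 2 * φ z) := i0.const_mul _
    rw [e, integral_add j2 j3, integral_sub i2 j1, integral_const_mul, integral_const_mul, hφ1,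
      ← ha]
    ring
  linarith

theorem t_FI : S_FI := by
  intro μ hμ hst c t ht hgood hc hX
  obtain ⟨φ, hTF, hφ0, hφ1⟩ := exists_test
  have hφc : Continuous φ := hTF.1.continuous
  have hφs : HasCompactSupport φ := hTF.2.1
  -- the averaged quantity
  set H : ℕ → MW → ℝ≥0∞ := fun n f => ∫⁻ z, ENNReal.ofReal
    (φ z * (M 0 f 0 - M 0 f ((t n : ℂ) * z)) ^ 2) with hH
  have hjoint : ∀ n, Measurable (Function.uncurry fun (z : ℂ) (f : MW) =>
      φ z * (M 0 f 0 - M 0 f ((t n : ℂ) * z)) ^ 2) := by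
    intro n
    refine measurable_uncurry_of_continuous_of_measurable (fun f => ?_) fun z => ?_
    · have h3 : Continuous fun z : ℂ => (t n : ℂ) * z := by fun_prop
      exact hφc.mul ((continuous_const.sub ((M0_cont f).comp h3)).pow 2)
    · exact (((meas_M 0 0).sub (meas_M 0 _)).pow_const 2).const_mul _
  have hHm : ∀ n, Measurable (H n) := by
    intro n
    have h1 : Measurable fun x : MW × ℂ => ENNReal.ofReal
        (φ x.2 * (M 0 x.1 0 - M 0 x.1 ((t n : ℂ) * x.2)) ^ 2) :=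
      ENNReal.measurable_ofReal.comp ((hjoint n).comp measurable_swap)
    exact h1.lintegral_prod_right'
  have hHi : ∀ n, ∫⁻ f, H n f ∂μ ≤ ENNReal.ofReal (64 * c ^ 2) := by
    intro n
    calc ∫⁻ f, H n f ∂μ
        = ∫⁻ z : ℂ, (∫⁻ f : MW, ENNReal.ofReal
            (φ z * (M 0 f 0 - M 0 f ((t n : ℂ) * z)) ^ 2) ∂μ) := by
          refine (lintegral_lintegral_swap (μ := (volume : Measure ℂ)) (ν := μ)
            (f := fun (z : ℂ) (f : MW) => ENNReal.ofReal
              (φ z * (M 0 f 0 - M 0 f ((t n : ℂ) * z)) ^ 2)) ?_).symm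
          exact (ENNReal.measurable_ofReal.comp (hjoint n)).aemeasurable
      _ ≤ ∫⁻ z : ℂ, ENNReal.ofReal (φ z) * ENNReal.ofReal (64 * c ^ 2) := by
          refine lintegral_mono fun z => ?_
          have e : ∀ f : MW, ENNReal.ofReal (φ z * (M 0 f 0 - M 0 f ((t n : ℂ) * z)) ^ 2) =
              ENNReal.ofReal (φ z) * ENNReal.ofReal ((M 0 f 0 - M 0 f ((t n : ℂ) * z)) ^ 2) :=
            fun f => ENNReal.ofReal_mul (hφ0 z)
          simp only [e]
          have hm2 : Measurable fun f : MW =>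
              ENNReal.ofReal ((M 0 f 0 - M 0 f ((t n : ℂ) * z)) ^ 2) :=
            (((meas_M 0 0).sub (meas_M 0 _)).pow_const 2).ennreal_ofReal
          rw [lintegral_const_mul _ hm2]
          gcongr
          exact E_v hX hst hc _
      _ = ENNReal.ofReal (64 * c ^ 2) := by
          rw [lintegral_mul_const _ (hφc.measurable.ennreal_ofReal),
            ← ofReal_integral_eq_lintegral_ofReal (hφc.integrable_of_hasCompactSupport hφs)
              (Eventually.of_forall hφ0), hφ1, ENNReal.ofReal_one, one_mul]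
  -- the bound almost surely
  have hae : ∀ᵐ f : MW ∂μ, ENNReal.ofReal (M 0 f 0 ^ 2) ≤
      2 * liminf (fun n => H n f) atTop + ENNReal.ofReal (8 * c ^ 2) := by
    filter_upwards [hgood] with f hf
    obtain ⟨m, hmc, hg⟩ := hf
    have hm0 := hg.nonneg
    have hV : Tendsto (fun n => ∫ z, φ z * M 0 f ((t n : ℂ) * z)) atTop (𝓝 (2 * m)) := by
      have h1 := (hg.two φ hTF 0).add (hg.two φ hTF 1)
      rw [hφ1, mul_one] at h1
      have h2 : m + m = 2 * m := by ring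
      rw [h2] at h1
      refine h1.congr fun n => ?_
      have h3 : Continuous fun z : ℂ => (t n : ℂ) * z := by fun_prop
      have i : ∀ a : ℤ, Integrable fun z => φ z * ‖UF f t n a z‖ ^ 2 := fun a =>
        (hφc.mul (((W_cont f a).comp h3).norm.pow 2)).integrable_of_hasCompactSupport
          hφs.mul_right
      rw [← integral_add (i 0) (i 1)]
      refine integral_congr_ae (Eventually.of_forall fun z => ?_)
      simp only [UF]
      rw [M0_eq]
      ring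
    have hle : ∀ n, ENNReal.ofReal ((M 0 f 0 - ∫ z, φ z * M 0 f ((t n : ℂ) * z)) ^ 2) ≤ H n f := by
      intro n
      have h3 : Continuous fun z : ℂ => (t n : ℂ) * z := by fun_prop
      have hcont : Continuous fun z : ℂ => M 0 f 0 - M 0 f ((t n : ℂ) * z) :=
        continuous_const.sub ((M0_cont f).comp h3)
      have h4 := jensen hφc hφs hφ0 hφ1 hcont
      have h5 : ∫ z, φ z * (M 0 f 0 - M 0 f ((t n : ℂ) * z)) =
          M 0 f 0 - ∫ z, φ z * M 0 f ((t n : ℂ) * z) := by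
        have e : (fun z => φ z * (M 0 f 0 - M 0 f ((t n : ℂ) * z))) =
            fun z => φ z * M 0 f 0 - φ z * M 0 f ((t n : ℂ) * z) := by
          funext z
          ring
        have j1 : Integrable (fun z => φ z * M 0 f 0) :=
          (hφc.integrable_of_hasCompactSupport hφs).mul_const _
        have j2 : Integrable (fun z => φ z * M 0 f ((t n : ℂ) * z)) :=
          (hφc.mul ((M0_cont f).comp h3)).integrable_of_hasCompactSupport hφs.mul_right
        rw [e, integral_sub j1 j2, integral_mul_const, hφ1, one_mul]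
      rw [h5] at h4
      refine (ENNReal.ofReal_le_ofReal h4).trans (le_of_eq ?_)
      rw [hH]
      refine ofReal_integral_eq_lintegral_ofReal
        ((hφc.mul (hcont.pow 2)).integrable_of_hasCompactSupport hφs.mul_right)
        (Eventually.of_forall fun z => ?_)
      have := hφ0 z
      positivity
    have hlim : ENNReal.ofReal ((M 0 f 0 - 2 * m) ^ 2) ≤ liminf (fun n => H n f) atTop := by
      have h6 : Tendsto (fun n => ENNReal.ofReal
          ((M 0 f 0 - ∫ z, φ z * M 0 f ((t n : ℂ) * z)) ^ 2)) atTop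
          (𝓝 (ENNReal.ofReal ((M 0 f 0 - 2 * m) ^ 2))) :=
        ENNReal.tendsto_ofReal ((tendsto_const_nhds.sub hV).pow 2)
      rw [← h6.liminf_eq]
      exact liminf_le_liminf (Eventually.of_forall hle)
    calc ENNReal.ofReal (M 0 f 0 ^ 2)
        ≤ ENNReal.ofReal (2 * (M 0 f 0 - 2 * m) ^ 2 + 8 * c ^ 2) := by
          apply ENNReal.ofReal_le_ofReal
          have h7 : m ^ 2 ≤ c ^ 2 := pow_le_pow_left₀ hm0 hmc 2
          nlinarith [sq_nonneg (M 0 f 0 - 4 * m)]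
      _ = 2 * ENNReal.ofReal ((M 0 f 0 - 2 * m) ^ 2) + ENNReal.ofReal (8 * c ^ 2) := by
          have e : (2 : ℝ≥0∞) = ENNReal.ofReal 2 := by simp
          rw [ENNReal.ofReal_add (by positivity) (by positivity), e,
            ENNReal.ofReal_mul (by norm_num)]
      _ ≤ 2 * liminf (fun n => H n f) atTop + ENNReal.ofReal (8 * c ^ 2) := by gcongr
  have hfin : ∫⁻ f : MW, ENNReal.ofReal (M 0 f 0 ^ 2) ∂μ < ⊤ := by
    have hLm : Measurable fun f : MW => liminf (fun n => H n f) atTop := Measurable.liminf hHm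
    calc ∫⁻ f : MW, ENNReal.ofReal (M 0 f 0 ^ 2) ∂μ
        ≤ ∫⁻ f : MW, (2 * liminf (fun n => H n f) atTop + ENNReal.ofReal (8 * c ^ 2)) ∂μ :=
          lintegral_mono_ae hae
      _ = 2 * ∫⁻ f : MW, liminf (fun n => H n f) atTop ∂μ + ENNReal.ofReal (8 * c ^ 2) := by
          rw [lintegral_add_left (hLm.const_mul 2), lintegral_const_mul _ hLm, lintegral_const,
            measure_univ, mul_one]
      _ ≤ 2 * ENNReal.ofReal (64 * c ^ 2) + ENNReal.ofReal (8 * c ^ 2) := by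
          gcongr
          refine (lintegral_liminf_le hHm).trans ?_
          refine (liminf_le_liminf (Eventually.of_forall hHi)).trans ?_
          simp
      _ < ⊤ := by
          refine ENNReal.add_lt_top.2 ⟨ENNReal.mul_lt_top (by simp) ENNReal.ofReal_lt_top,
            ENNReal.ofReal_lt_top⟩
  refine ⟨((meas_eval 0).pow_const 4).aestronglyMeasurable, ?_⟩
  rw [hasFiniteIntegral_iff_norm]
  refine lt_of_le_of_lt (lintegral_mono fun f => ?_) hfin
  apply ENNReal.ofReal_le_ofReal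
  rw [Real.norm_of_nonneg (by positivity), M0_eq]
  have h1 : ‖W 1 f 0 0‖ ^ 2 = f 0 ^ 2 := by
    rw [W_zero, Complex.norm_real, Real.norm_eq_abs, sq_abs]
  rw [h1]
  have h2 : f 0 ^ 4 = (f 0 ^ 2) ^ 2 := by ring
  rw [h2]
  exact pow_le_pow_left₀ (by positivity) (by linarith [sq_nonneg ‖W 1 f 1 0‖]) 2

end Pool.Agent.U88.SG.FI
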